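import Mathlib
import Pool.Agent.Work.MP_974d84_co_circ.Det

/-!
Lower bound for the determinant of the grounded Laplacian with weights at least one, from an upper
bound for the number of edges inside the classes of a partition.
-/

namespace Pool.Agent.Arb

open Finset Matrix Pool.Agent.Circ

set_option linter.unusedSectionVars false

variable {V E : Type*} [Fintype V] [DecidableEq V] [Fintype E] [DecidableEq E]

/-- The sparsity condition: `κ` times the number of edges inside the classes of a partition is at
most the number of vertices minus the number of classes. -/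
def Sparse (s t : E → V) (κ : ℝ) : Prop :=
  ∀ p : V → ℕ, κ * ((univ.filter (fun e => p (s e) = p (t e))).card : ℝ) ≤
    (Fintype.card V : ℝ) - ((univ.image p).card : ℝ)

/-- Lower bound for the determinant. -/
theorem det_lower (s t : E → V) (κ : ℝ) (hκ : 0 < κ) (hV : 1 < Fintype.card V)
    (hconn : ∀ X : Finset V, X.Nonempty → X ≠ univ → (cut s t X).Nonempty)
    (hs : Sparse s t κ)
    (c : E → ℝ) (hc1 : ∀ e, 1 ≤ c e) (v0 : V) :
    κ * ∑ e, Real.log (c e) ≤ Real.log (lapl s t c {v0}).det := by
  classical
  have hc : ∀ e, 0 < c e := fun e => lt_of_lt_of_le one_pos (hc1 e)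
  have hne : ({v0} : Finset V) ≠ univ := by
    intro h
    have h1 : ({v0} : Finset V).card = Fintype.card V := by rw [h, Finset.card_univ]
    rw [Finset.card_singleton] at h1
    omega
  have hEne : Nonempty E := by
    obtain ⟨e, _⟩ := hconn {v0} (Finset.singleton_nonempty _) hne
    exact ⟨e⟩
  set lam : E → ℝ := fun e => - Real.log (c e) with hlam
  have hlog0 : ∀ e, 0 ≤ Real.log (c e) := fun e => Real.log_nonneg (hc1 e)
  obtain ⟨S, a, d, hS0, hstep, hcard⟩ := prim_chain s t lam hconn v0
  obtain ⟨m, hm⟩ : ∃ m, Fintype.card V = m + 1 := ⟨Fintype.card V - 1, by omega⟩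
  have hstep' : ∀ i, i < m → a i ∉ S i ∧ S (i+1) = insert (a i) (S i) ∧
        ((s (d i) ∈ S i ∧ t (d i) = a i) ∨ (t (d i) ∈ S i ∧ s (d i) = a i)) ∧
        ∀ f ∈ cut s t (S i), lam (d i) ≤ lam f := fun i hi => hstep i (by omega)
  -- determinants along the chain
  have hSm : S m = univ := by
    apply Finset.eq_univ_of_card
    rw [hcard m (by omega), hm]
  have hdet : ∀ j, j ≤ m → ∏ i ∈ Finset.Ico j m, c (d i) ≤ (lapl s t c (S j)).det := by
    intro j hj
    induction hj using Nat.decreasingInduction with
    | self =>
      have hall : ∀ v, v ∈ S m := fun v => by rw [hSm]; exact Finset.mem_univ _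
      have : IsEmpty {v : V // v ∉ S m} := ⟨fun v => v.2 (hall v.1)⟩
      simp [det_isEmpty]
    | of_succ k hk ih =>
      obtain ⟨h1, h2, h3, _⟩ := hstep' k hk
      have h4 := det_step s t c (fun e => (hc e).le) (S k) (a k) h1 (d k) h3
      rw [← h2] at h4
      rw [Finset.prod_eq_prod_Ico_succ_bot hk]
      exact le_trans (mul_le_mul_of_nonneg_left ih (hc _).le) h4
  have hdet0 := hdet 0 (Nat.zero_le _)
  rw [hS0] at hdet0
  have hprod0 : 0 < ∏ i ∈ Finset.Ico 0 m, c (d i) := Finset.prod_pos fun i _ => hc _
  have hlog : ∑ i ∈ Finset.Ico 0 m, Real.log (c (d i)) ≤ Real.log (lapl s t c {v0}).det := by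
    have h1 := Real.log_le_log hprod0 hdet0
    rwa [Real.log_prod (fun i _ => (hc _).ne')] at h1
  -- layer cake
  have hlc : ∑ e ∈ (univ : Finset E), Real.log (c e) ≤
      κ⁻¹ * ∑ i ∈ Finset.Ico 0 m, Real.log (c (d i)) := by
    refine layer_cake _ _ _ _ _ (fun e _ => hlog0 _) (fun i _ => hlog0 _) ?_
    intro τ hτ
    set N : Finset ℕ := (Finset.Ico 0 m).filter (fun i => ¬ τ < Real.log (c (d i))) with hN
    let r : V → ℕ := fun v => (N.filter (fun i => v ∉ S i)).card
    have hmono : ∀ i j, i ≤ j → j ≤ m → S i ⊆ S j := by
      intro i j hij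
      induction hij with
      | refl => intro _; exact Finset.Subset.refl _
      | step h ih =>
        rename_i k
        intro hk
        have h2 := (hstep' k (by omega)).2.1
        refine (ih (by omega)).trans ?_
        rw [h2]
        exact Finset.subset_insert _ _
    -- values of r
    have hr0 : r v0 = 0 := by
      simp only [r, Finset.card_eq_zero, Finset.filter_eq_empty_iff]
      intro i hi h
      have hi' : i < m := by
        have := (Finset.mem_filter.mp hi).1
        exact (Finset.mem_Ico.mp this).2
      exact h (hmono 0 i (Nat.zero_le _) hi'.le (by rw [hS0]; exact Finset.mem_singleton_self _))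
    have hra : ∀ j, j < m → r (a j) = (N.filter (fun i => i ≤ j)).card := by
      intro j hj
      simp only [r]
      congr 1
      refine Finset.filter_congr fun i hi => ?_
      have hi' : i < m := by
        have := (Finset.mem_filter.mp hi).1
        exact (Finset.mem_Ico.mp this).2
      constructor
      · intro h
        by_contra h'
        push Not at h'
        apply h
        have h2 := (hstep' j hj).2.1
        exact hmono (j+1) i h' hi'.le (by rw [h2]; exact Finset.mem_insert_self _ _)
      · intro h h'
        exact (hstep' j hj).1 (hmono i j h hj.le h')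
    have hstrict : ∀ i ∈ N, ∀ j ∈ N, i < j → r (a i) < r (a j) := by
      intro i hi j hj hij
      have hi' : i < m := (Finset.mem_Ico.mp (Finset.mem_filter.mp hi).1).2
      have hj' : j < m := (Finset.mem_Ico.mp (Finset.mem_filter.mp hj).1).2
      rw [hra i hi', hra j hj']
      apply Finset.card_lt_card
      rw [Finset.ssubset_iff_of_subset]
      · exact ⟨j, by simp [hj], by simp [hij]⟩
      · intro k hk
        rw [Finset.mem_filter] at hk ⊢
        exact ⟨hk.1, by omega⟩
    have hpos : ∀ i ∈ N, 0 < r (a i) := by
      intro i hi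
      have hi' : i < m := (Finset.mem_Ico.mp (Finset.mem_filter.mp hi).1).2
      rw [hra i hi', Finset.card_pos]
      exact ⟨i, by simp [hi]⟩
    have himg : N.card + 1 ≤ (univ.image r).card := by
      have hinj : Set.InjOn (fun i => r (a i)) (N : Set ℕ) := by
        intro i hi j hj hij
        by_contra hne'
        rcases lt_or_gt_of_ne hne' with h | h
        · exact absurd hij (hstrict i hi j hj h).ne
        · exact absurd hij (hstrict j hj i hi h).ne'
      have h0 : (0:ℕ) ∉ N.image (fun i => r (a i)) := by
        intro h
        obtain ⟨i, hi, h1⟩ := Finset.mem_image.mp h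
        exact absurd h1 (hpos i hi).ne'
      have h1 : insert 0 (N.image (fun i => r (a i))) ⊆ univ.image r := by
        intro x hx
        rcases Finset.mem_insert.mp hx with h | h
        · rw [h, ← hr0]; exact Finset.mem_image_of_mem _ (Finset.mem_univ _)
        · obtain ⟨i, _, h1⟩ := Finset.mem_image.mp h
          rw [← h1]; exact Finset.mem_image_of_mem _ (Finset.mem_univ _)
      have h2 := Finset.card_le_card h1
      rw [Finset.card_insert_of_notMem h0, Finset.card_image_of_injOn hinj] at h2
      exact h2
    have hcross : univ.filter (fun e => τ < Real.log (c e)) ⊆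
        (univ.filter (fun e => r (s e) = r (t e))) := by
      intro e he
      rw [Finset.mem_filter] at he ⊢
      refine ⟨Finset.mem_univ _, ?_⟩
      by_contra hner
      -- a general fact : if r u < r v then some `i ∈ N` has u ∈ S i, v ∉ S i
      have hlt : ∀ u v : V, r u < r v → ∃ i ∈ N, u ∈ S i ∧ v ∉ S i := by
        intro u v huv
        by_contra hcon
        push Not at hcon
        have : N.filter (fun i => v ∉ S i) ⊆ N.filter (fun i => u ∉ S i) := by
          intro i hi
          rw [Finset.mem_filter] at hi ⊢
          exact ⟨hi.1, fun h => hi.2 (hcon i hi.1 h)⟩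
        exact absurd (Finset.card_le_card this) (not_le.mpr huv)
      have hfin : ∀ i ∈ N, e ∈ cut s t (S i) → False := by
        intro i hi h1
        have hi' : i < m := (Finset.mem_Ico.mp (Finset.mem_filter.mp hi).1).2
        have h3 := (hstep' i hi').2.2.2 e h1
        have h4 := (Finset.mem_filter.mp hi).2
        simp only [hlam] at h3
        linarith [he.2]
      rcases lt_or_gt_of_ne hner with h | h
      · obtain ⟨i, hi, h1, h2⟩ := hlt _ _ h
        exact hfin i hi (by simp [cut, h1, h2])
      · obtain ⟨i, hi, h1, h2⟩ := hlt _ _ h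
        exact hfin i hi (by simp [cut, h1, h2])
    have h1 := hs r
    have h2 : ((N.card : ℕ) : ℝ) + 1 ≤ ((univ.image r).card : ℝ) := by exact_mod_cast himg
    have h3 : ((univ.filter (fun e => τ < Real.log (c e))).card : ℝ) ≤
        ((univ.filter (fun e => r (s e) = r (t e))).card : ℝ) := by
      exact_mod_cast Finset.card_le_card hcross
    have h4 : (((Finset.Ico 0 m).filter (fun i => τ < Real.log (c (d i)))).card : ℝ) +
        (N.card : ℝ) = m := by
      have h5 := Finset.card_filter_add_card_filter_not (s := Finset.Ico 0 m)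
        (fun i => τ < Real.log (c (d i)))
      rw [Nat.card_Ico, Nat.sub_zero] at h5
      exact_mod_cast h5
    have h6 : (Fintype.card V : ℝ) = m + 1 := by rw [hm]; push_cast; ring
    rw [h6] at h1
    have h7 : κ * ((univ.filter (fun e => τ < Real.log (c e))).card : ℝ) ≤
        (((Finset.Ico 0 m).filter (fun i => τ < Real.log (c (d i)))).card : ℝ) := by
      have h8 := mul_le_mul_of_nonneg_left h3 hκ.le
      linarith
    rw [inv_mul_eq_div, le_div_iff₀ hκ]
    linarith
  have h9 : κ * ∑ e ∈ (univ : Finset E), Real.log (c e) ≤
      ∑ i ∈ Finset.Ico 0 m, Real.log (c (d i)) := by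
    have h10 := mul_le_mul_of_nonneg_left hlc hκ.le
    rwa [← mul_assoc, mul_inv_cancel₀ hκ.ne', one_mul] at h10
  linarith

end Pool.Agent.Arb
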