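import Mathlib
import Pool.Agent.Work.MP_974d84_co_circ.M1c
import Pool.Agent.Work.MP_392c8e_co_arb13.Lower

/-!
Weights for which all leverages are at least `κ'`, and the corresponding potentials.
-/

namespace Pool.Agent.Arb

open Finset Matrix Pool.Agent.Circ

set_option linter.unusedSectionVars false

variable {V E : Type*} [Fintype V] [DecidableEq V] [Fintype E] [DecidableEq E]

/-- Weights at least one with all leverages at least `κ'`. -/
theorem exists_weights_of (s t : E → V) (κ : ℝ)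
    (hcut : ∀ X : Finset V, X.Nonempty → X ≠ univ → (cut s t X).Nonempty)
    (v0 : V)
    (hlow : ∀ c : E → ℝ, (∀ e, 1 ≤ c e) →
      κ * ∑ e, Real.log (c e) ≤ Real.log (lapl s t c {v0}).det)
    (κ' : ℝ) (h0 : 0 < κ') (hx : κ' < κ) :
    ∃ c : E → ℝ, (∀ e, 1 ≤ c e) ∧
      ∀ e : E, κ' ≤ c e * (bvec s t {v0} e ⬝ᵥ ((lapl s t c {v0})⁻¹ *ᵥ bvec s t {v0} e)) := by
  have hx' : 0 < κ - κ' := by linarith
  set D : (E → ℝ) → ℝ := fun c => (lapl s t c {v0}).det with hD
  set Φ : (E → ℝ) → ℝ := fun c => Real.log (D c) - κ' * ∑ e, Real.log (c e) with hΦ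
  have hDpos : ∀ c : E → ℝ, (∀ e, 0 < c e) → 0 < D c := fun c hc =>
    (lapl_posDef s t hcut c hc v0).det_pos
  set M : ℝ := Φ (fun _ => 1) with hM
  set B : ℝ := Real.exp ((|M| + 1) / (κ - κ')) with hB
  have hB1 : 1 ≤ B := by
    rw [hB]
    apply Real.one_le_exp
    exact div_nonneg (by positivity) hx'.le
  -- lower bound for Φ
  have hΦlow : ∀ c : E → ℝ, (∀ e, 1 ≤ c e) → ∀ e,
      (κ - κ') * (Real.log (c e)) ≤ Φ c := by
    intro c h1 e
    have h2 := hlow c h1
    have h3 : Real.log (c e) ≤ ∑ e', Real.log (c e') :=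
      Finset.single_le_sum (f := fun e' => Real.log (c e'))
        (fun e' _ => Real.log_nonneg (h1 e')) (Finset.mem_univ e)
    have h4 : Φ c = Real.log (D c) - κ' * ∑ e, Real.log (c e) := rfl
    rw [h4]
    have h5 : (κ - κ') * Real.log (c e) ≤ (κ - κ') * ∑ e', Real.log (c e') :=
      mul_le_mul_of_nonneg_left h3 hx'.le
    have h6 : κ * ∑ e, Real.log (c e) ≤ Real.log (D c) := h2
    nlinarith
  -- compactness
  have hKc : IsCompact (Set.Icc (fun _ : E => (1:ℝ)) (fun _ => B)) := isCompact_Icc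
  have hcont : ContinuousOn Φ (Set.Icc (fun _ : E => (1:ℝ)) (fun _ => B)) := by
    have hDc : Continuous D := by
      rw [hD]
      refine Continuous.matrix_det ?_
      refine continuous_pi fun u => continuous_pi fun v => ?_
      simp only [lapl]
      fun_prop
    refine ContinuousOn.sub ?_ ?_
    · refine ContinuousOn.log hDc.continuousOn fun c hc => (hDpos c fun e => ?_).ne'
      exact lt_of_lt_of_le one_pos (hc.1 e)
    · refine ContinuousOn.mul continuousOn_const ?_
      refine continuousOn_finsetSum _ fun e _ => ?_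
      refine ContinuousOn.log (continuous_apply e).continuousOn fun c hc => ?_
      exact (lt_of_lt_of_le one_pos (hc.1 e)).ne'
  obtain ⟨c, hcK, hmin⟩ := hKc.exists_isMinOn
    ⟨fun _ => 1, ⟨fun _ => le_refl _, fun _ => hB1⟩⟩ hcont
  have hc1 : ∀ e, 1 ≤ c e := fun e => hcK.1 e
  have hc0 : ∀ e, 0 < c e := fun e => lt_of_lt_of_le one_pos (hc1 e)
  have hcM : Φ c ≤ M := hmin ⟨fun _ => le_refl _, fun _ => hB1⟩
  have hglob : ∀ c' : E → ℝ, (∀ e, 1 ≤ c' e) → Φ c ≤ Φ c' := by
    intro c' h1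
    by_cases hK : ∀ e, c' e ≤ B
    · exact hmin ⟨h1, hK⟩
    · push Not at hK
      obtain ⟨e, he⟩ := hK
      have h2 := hΦlow c' h1 e
      have h3 : (|M| + 1) / (κ - κ') < Real.log (c' e) := by
        rw [← Real.log_exp ((|M| + 1) / (κ - κ'))]
        exact Real.log_lt_log (Real.exp_pos _) he
      have h4 : (κ - κ') * ((|M| + 1) / (κ - κ')) = |M| + 1 := by
        field_simp
      have h5 : (κ - κ') * ((|M| + 1) / (κ - κ')) ≤ (κ - κ') * (Real.log (c' e)) :=
        mul_le_mul_of_nonneg_left h3.le hx'.le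
      have h6 := le_abs_self M
      linarith
  refine ⟨c, hc1, fun e => ?_⟩
  have hpd : (lapl s t c {v0}).PosDef := lapl_posDef s t hcut c hc0 v0
  have hdet : IsUnit (lapl s t c {v0}).det := isUnit_iff_ne_zero.2 hpd.det_pos.ne'
  set R : ℝ := bvec s t {v0} e ⬝ᵥ ((lapl s t c {v0})⁻¹ *ᵥ bvec s t {v0} e) with hR
  -- variation of the weight of e
  have hvar : ∀ τ : ℝ, 0 < τ → κ' ≤ (c e + τ) * R := by
    intro τ h0'
    set c' : E → ℝ := fun e' => c e' - if e' = e then (-τ) else 0 with hc'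
    have hc'1 : ∀ e', 1 ≤ c' e' := by
      intro e'
      by_cases h : e' = e
      · subst h; simp only [hc', if_true]; linarith [hc1 e']
      · simp only [hc', if_neg h]; linarith [hc1 e']
    have hc'0 : ∀ e', 0 < c' e' := fun e' => lt_of_lt_of_le one_pos (hc'1 e')
    have h2 := hglob c' hc'1
    have h3 : D c' = D c * (1 + τ * R) := by
      have := det_decrease s t c v0 e (-τ) hdet
      simp only [hD, hc']
      rw [this]
      ring
    have h4 : 0 < 1 + τ * R := by
      have := hDpos c' hc'0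
      rw [h3] at this
      exact (pos_iff_pos_of_mul_pos this).1 (hDpos c hc0)
    have h5 : ∑ e', Real.log (c' e') =
        ∑ e', Real.log (c e') + (Real.log (c e + τ) - Real.log (c e)) := by
      rw [← Finset.add_sum_erase univ (fun e' => Real.log (c' e')) (Finset.mem_univ e),
        ← Finset.add_sum_erase univ (fun e' => Real.log (c e')) (Finset.mem_univ e)]
      have h6 : ∑ e' ∈ univ.erase e, Real.log (c' e') = ∑ e' ∈ univ.erase e, Real.log (c e') := by
        refine Finset.sum_congr rfl fun e' he' => ?_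
        have : e' ≠ e := Finset.ne_of_mem_erase he'
        simp only [hc', if_neg this, sub_zero]
      have h7 : c' e = c e + τ := by simp only [hc', if_true]; ring
      rw [h6, h7]
      ring
    have h8 : Φ c' = Φ c + Real.log (1 + τ * R) -
        κ' * (Real.log (c e + τ) - Real.log (c e)) := by
      simp only [hΦ]
      rw [h3, h5, Real.log_mul (hDpos c hc0).ne' h4.ne']
      ring
    have h9 : κ' * (Real.log (c e + τ) - Real.log (c e)) ≤ Real.log (1 + τ * R) := by linarith
    have h10 : Real.log (1 + τ * R) ≤ τ * R := by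
      have := Real.log_le_sub_one_of_pos h4
      linarith
    have hcτ : 0 < c e + τ := by linarith [hc0 e]
    have h11 : τ / (c e + τ) ≤ Real.log (c e + τ) - Real.log (c e) := by
      rw [← Real.log_div hcτ.ne' (hc0 e).ne']
      have := Real.one_sub_inv_le_log_of_pos (show (0:ℝ) < (c e + τ) / c e from
        div_pos hcτ (hc0 e))
      have h12 : 1 - ((c e + τ) / c e)⁻¹ = τ / (c e + τ) := by
        rw [inv_div]
        field_simp
        ring
      linarith
    have h13 : κ' * (τ / (c e + τ)) ≤ τ * R := by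
      have := mul_le_mul_of_nonneg_left h11 h0.le
      linarith
    have h14 : κ' * (τ / (c e + τ)) = τ * (κ' / (c e + τ)) := by ring
    rw [h14] at h13
    have h15 : κ' / (c e + τ) ≤ R := le_of_mul_le_mul_left h13 h0'
    rw [div_le_iff₀ hcτ] at h15
    linarith
  have hlim : Filter.Tendsto (fun τ : ℝ => (c e + τ) * R) (nhdsWithin 0 (Set.Ioi 0))
      (nhds ((c e + 0) * R)) := by
    refine Filter.Tendsto.mono_left ?_ nhdsWithin_le_nhds
    exact (tendsto_const_nhds.add Filter.tendsto_id).mul tendsto_const_nhds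
  have hev : ∀ᶠ τ in nhdsWithin (0:ℝ) (Set.Ioi 0), κ' ≤ (c e + τ) * R := by
    filter_upwards [self_mem_nhdsWithin] with τ hτ
    exact hvar τ hτ
  have := ge_of_tendsto hlim hev
  simpa using this

/-- Potentials: for every edge `e` there is `y` such that the indicator of `e` minus the
difference of `y` has energy at most `(1 - κ') c e`. -/
theorem exists_potentials (s t : E → V) (κ : ℝ) (hκ : 0 < κ) (hV : 1 < Fintype.card V)
    (hcut : ∀ X : Finset V, X.Nonempty → X ≠ univ → (cut s t X).Nonempty)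
    (hs : Sparse s t κ) (κ' : ℝ) (h0 : 0 < κ') (hx : κ' < κ) :
    ∃ c : E → ℝ, (∀ e, 1 ≤ c e) ∧ ∀ e : E, ∃ y : V → ℝ,
      ∑ f, c f * ((if f = e then (1:ℝ) else 0) - (y (s f) - y (t f))) ^ 2 ≤ (1 - κ') * c e := by
  classical
  obtain ⟨v0⟩ : Nonempty V := Fintype.card_pos_iff.1 (by omega)
  obtain ⟨c, hc1, hc⟩ := exists_weights_of s t κ hcut v0
    (fun c hc1 => det_lower s t κ hκ hV hcut hs c hc1 v0) κ' h0 hx
  have hc0 : ∀ e, 0 < c e := fun e => lt_of_lt_of_le one_pos (hc1 e)
  refine ⟨c, hc1, fun e => ?_⟩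
  have h1 := hc e
  set L := lapl s t c {v0} with hL
  set b := bvec s t {v0} e with hb
  have hpd : L.PosDef := lapl_posDef s t hcut c hc0 v0
  have hdet : IsUnit L.det := isUnit_iff_ne_zero.2 hpd.det_pos.ne'
  set u := L⁻¹ *ᵥ b with hu
  have hLu : L *ᵥ u = b := by
    rw [hu, mulVec_mulVec, mul_nonsing_inv _ hdet, one_mulVec]
  set y : V → ℝ := fun v => if h : v ∉ ({v0} : Finset V) then c e * u ⟨v, h⟩ else 0 with hy
  have hyS : ∀ v ∈ ({v0} : Finset V), y v = 0 := fun v hv => by
    simp only [hy]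
    rw [dif_neg (not_not.2 hv)]
  have hyx : (fun w : {v : V // v ∉ ({v0} : Finset V)} => y w.1) = c e • u := by
    funext w
    have := w.2
    simp only [hy, dif_pos this, Pi.smul_apply, smul_eq_mul]
  have hby : ∀ f, y (s f) - y (t f) = c e * (bvec s t {v0} f ⬝ᵥ u) := by
    intro f
    rw [← bvec_dot s t {v0} f y hyS, hyx, dotProduct_smul, smul_eq_mul]
  have hquad : ∑ f, c f * (bvec s t {v0} f ⬝ᵥ u) ^ 2 = b ⬝ᵥ u := by
    rw [← lapl_quad, ← hL, hLu, dotProduct_comm]
  refine ⟨y, ?_⟩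
  have h2 : ∑ f, c f * ((if f = e then (1:ℝ) else 0) - (y (s f) - y (t f))) ^ 2 =
      ∑ f, ((if f = e then c f * (1 - 2 * (c e * (bvec s t {v0} f ⬝ᵥ u))) else 0) +
        (c e) ^ 2 * (c f * (bvec s t {v0} f ⬝ᵥ u) ^ 2)) := by
    refine Finset.sum_congr rfl fun f _ => ?_
    rw [hby f]
    by_cases hf : f = e
    · rw [if_pos hf, if_pos hf]; ring
    · rw [if_neg hf, if_neg hf]; ring
  rw [h2, Finset.sum_add_distrib, Finset.sum_ite_eq' univ e, if_pos (Finset.mem_univ _),
    ← Finset.mul_sum, hquad, ← hb]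
  have h3 : c e * κ' ≤ c e * (c e * (b ⬝ᵥ u)) := mul_le_mul_of_nonneg_left h1 (hc0 e).le
  nlinarith [h3]

end Pool.Agent.Arb
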