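import Mathlib
import Pool.Agent.Work.MP_392c8e_co_arb13.Weights

/-!
The closest vector argument with arbitrary real shifts.
-/

namespace Pool.Agent.Arb

open Finset Matrix Pool.Agent.Circ

set_option linter.unusedSectionVars false

variable {V E : Type*} [Fintype V] [DecidableEq V] [Fintype E] [DecidableEq E]

/-- Distance of a real number to the odd integers. -/
noncomputable def rho (u : ℝ) : ℝ := 2 * |(u - 1) / 2 - round ((u - 1) / 2)|

theorem rho_nonneg (u : ℝ) : 0 ≤ rho u := by unfold rho; positivity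

theorem rho_continuous : Continuous rho := by
  have h : rho = fun u : ℝ => 2 * ‖(((u - 1) / 2 : ℝ) : UnitAddCircle)‖ := by
    funext u
    rw [UnitAddCircle.norm_eq]
    rfl
  rw [h]
  refine continuous_const.mul (Continuous.norm ?_)
  exact (AddCircle.continuous_mk' 1).comp (by fun_prop)

theorem rho_le (u : ℝ) (n : ℤ) : rho u ≤ |u - (2 * n + 1)| := by
  have h1 := round_le ((u - 1) / 2) n
  have h2 : |u - (2 * n + 1)| = 2 * |(u - 1) / 2 - n| := by
    rw [← abs_of_pos (show (0:ℝ) < 2 by norm_num), ← abs_mul]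
    congr 1
    rw [abs_of_pos (show (0:ℝ) < 2 by norm_num)]
    ring
  rw [h2]
  unfold rho
  linarith

theorem exists_rho (u : ℝ) : ∃ n : ℤ, |u - (2 * n + 1)| = rho u := by
  refine ⟨round ((u - 1) / 2), ?_⟩
  unfold rho
  rw [← abs_of_pos (show (0:ℝ) < 2 by norm_num), ← abs_mul]
  congr 1
  rw [abs_of_pos (show (0:ℝ) < 2 by norm_num)]
  ring

theorem rho_add (u : ℝ) (m : ℤ) : rho (u + 2 * m) = rho u := by
  unfold rho
  have h : (u + 2 * m - 1) / 2 = (u - 1) / 2 + (m : ℝ) := by ring
  rw [h, round_add_intCast]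
  congr 2
  push_cast
  ring

/-- Periodic continuous energy has a global minimiser in the box. -/
theorem exists_min (s t : E → V) (c : E → ℝ) (w : E → ℝ) :
    ∃ g : V → ℝ, g ∈ Set.Icc (fun _ : V => (0:ℝ)) (fun _ => 2) ∧
      ∀ g' : V → ℝ, ∑ e, c e * rho (w e + g (s e) - g (t e)) ^ 2 ≤
        ∑ e, c e * rho (w e + g' (s e) - g' (t e)) ^ 2 := by
  have hcont : Continuous (fun g : V → ℝ => ∑ e, c e * rho (w e + g (s e) - g (t e)) ^ 2) := by
    refine continuous_finsetSum _ fun e _ => ?_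
    refine continuous_const.mul (Continuous.pow ?_ 2)
    refine rho_continuous.comp ?_
    fun_prop
  obtain ⟨g, hg, hmin⟩ := (isCompact_Icc (a := fun _ : V => (0:ℝ)) (b := fun _ => 2)).exists_isMinOn
    ⟨fun _ => 0, ⟨fun _ => le_refl _, fun _ => by norm_num⟩⟩ hcont.continuousOn
  refine ⟨g, hg, fun g' => ?_⟩
  set g'' : V → ℝ := fun v => g' v - 2 * (⌊g' v / 2⌋ : ℤ) with hg''
  have h1 : g'' ∈ Set.Icc (fun _ : V => (0:ℝ)) (fun _ => 2) := by
    constructor
    · intro v
      have := Int.floor_le (g' v / 2)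
      simp only [hg'']; linarith
    · intro v
      have := Int.lt_floor_add_one (g' v / 2)
      simp only [hg'']; linarith
  have h2 := hmin h1
  have h3 : ∀ e, rho (w e + g'' (s e) - g'' (t e)) = rho (w e + g' (s e) - g' (t e)) := by
    intro e
    have : w e + g'' (s e) - g'' (t e) = (w e + g' (s e) - g' (t e)) +
        2 * ((⌊g' (t e) / 2⌋ - ⌊g' (s e) / 2⌋ : ℤ) : ℝ) := by
      simp only [hg'']
      push_cast
      ring
    rw [this, rho_add]
  simp only [Set.mem_ofPred_eq, h3] at h2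
  exact h2

/-- The closest vector argument. -/
theorem lattice (s t : E → V) (c : E → ℝ) (hc : ∀ e, 0 < c e) (x : ℝ)
    (hy : ∀ e : E, ∃ y : V → ℝ,
      ∑ f, c f * ((if f = e then (1:ℝ) else 0) - (y (s f) - y (t f))) ^ 2 ≤ x * c e)
    (w : E → ℝ) :
    ∃ g : V → ℝ, g ∈ Set.Icc (fun _ : V => (0:ℝ)) (fun _ => 2) ∧
      ∀ e, rho (w e + g (s e) - g (t e)) ≤ x := by
  obtain ⟨g, hg, hmin⟩ := exists_min s t c w
  refine ⟨g, hg, ?_⟩
  choose n hn using fun e => exists_rho (w e + g (s e) - g (t e))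
  set z : E → ℝ := fun e => w e + g (s e) - g (t e) - (2 * n e + 1) with hz
  have hEz : ∑ e, c e * rho (w e + g (s e) - g (t e)) ^ 2 = ∑ e, c e * z e ^ 2 := by
    refine Finset.sum_congr rfl fun e _ => ?_
    rw [← hn e, sq_abs]
  have hopt : ∀ (g' : V → ℝ) (n' : E → ℤ),
      ∑ e, c e * z e ^ 2 ≤ ∑ e, c e * (w e + g' (s e) - g' (t e) - (2 * n' e + 1)) ^ 2 := by
    intro g' n'
    rw [← hEz]
    refine (hmin g').trans (Finset.sum_le_sum fun e _ => ?_)
    refine mul_le_mul_of_nonneg_left ?_ (hc e).le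
    rw [← sq_abs (w e + g' (s e) - g' (t e) - (2 * n' e + 1))]
    exact pow_le_pow_left₀ (rho_nonneg _) (rho_le _ _) 2
  -- stationarity
  have hstat : ∀ y : V → ℝ, ∑ e, c e * (z e * (y (s e) - y (t e))) = 0 := by
    intro y
    have key : ∀ r : ℝ, 0 ≤ (∑ e, c e * (y (s e) - y (t e)) ^ 2) * (r * r) +
        (2 * ∑ e, c e * (z e * (y (s e) - y (t e)))) * r + 0 := by
      intro r
      have h1 := hopt (fun v => g v + r * y v) n
      have h2 : ∑ e, c e * (w e + (g (s e) + r * y (s e)) - (g (t e) + r * y (t e)) -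
          (2 * n e + 1)) ^ 2 = ∑ e, c e * z e ^ 2 +
            ((∑ e, c e * (y (s e) - y (t e)) ^ 2) * (r * r) +
            (2 * ∑ e, c e * (z e * (y (s e) - y (t e)))) * r) := by
        rw [Finset.sum_mul, Finset.mul_sum, Finset.sum_mul, ← Finset.sum_add_distrib,
          ← Finset.sum_add_distrib]
        refine Finset.sum_congr rfl fun e _ => ?_
        simp only [hz]
        ring
      rw [h2] at h1
      linarith
    have h3 := discrim_le_zero key
    rw [discrim] at h3
    have h4 : (2 * ∑ e, c e * (z e * (y (s e) - y (t e)))) ^ 2 ≤ 0 := by linarith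
    have h5 := pow_eq_zero_iff (two_ne_zero) |>.1 (le_antisymm h4 (sq_nonneg _))
    linarith
  intro e
  obtain ⟨y, hye⟩ := hy e
  have hboth : ∀ σ : ℤ, σ = 1 ∨ σ = -1 → -((σ : ℝ) * z e) ≤ x := by
    intro σ hσ
    have hσ2 : (σ : ℝ) ^ 2 = 1 := by
      rcases hσ with h | h <;> rw [h] <;> norm_num
    have h1 := hopt (fun v => g v - 2 * σ * y v) (fun f => n f - (if f = e then σ else 0))
    have h2 : ∑ f, c f * (w f + (g (s f) - 2 * σ * y (s f)) - (g (t f) - 2 * σ * y (t f)) -
          (2 * ((n f - (if f = e then σ else 0) : ℤ) : ℝ) + 1)) ^ 2 =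
        ∑ f, c f * z f ^ 2 + ((if e = e then 4 * σ * (c e * z e) else 0) -
          4 * σ * ∑ f, c f * (z f * (y (s f) - y (t f))) +
          4 * ∑ f, c f * ((if f = e then (1:ℝ) else 0) - (y (s f) - y (t f))) ^ 2) := by
      have h3 : (if e = e then 4 * (σ:ℝ) * (c e * z e) else 0) =
          ∑ f, (if f = e then 4 * (σ:ℝ) * (c f * z f) else 0) := by
        rw [Finset.sum_ite_eq' univ e, if_pos (Finset.mem_univ _), if_pos rfl]
      rw [h3, Finset.mul_sum, Finset.mul_sum, ← Finset.sum_sub_distrib, ← Finset.sum_add_distrib,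
        ← Finset.sum_add_distrib]
      refine Finset.sum_congr rfl fun f _ => ?_
      have h4 : (σ:ℝ) * σ = 1 := by rw [← sq]; exact hσ2
      by_cases hf : f = e
      · rw [if_pos hf, if_pos hf, if_pos hf]
        simp only [hz]
        push_cast
        linear_combination (4 * c f * (1 - (y (s f) - y (t f))) ^ 2) * h4
      · rw [if_neg hf, if_neg hf, if_neg hf]
        simp only [hz]
        push_cast
        linear_combination (4 * c f * (y (s f) - y (t f)) ^ 2) * h4
    rw [h2, hstat y, if_pos rfl] at h1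
    have h5 : 0 ≤ c e * ((σ:ℝ) * z e + x) := by nlinarith
    have h6 : 0 ≤ (σ:ℝ) * z e + x := by
      by_contra hcon
      push Not at hcon
      have := mul_neg_of_pos_of_neg (hc e) hcon
      linarith
    linarith
  have h1 := hboth 1 (Or.inl rfl)
  have h2 := hboth (-1) (Or.inr rfl)
  rw [← hn e]
  change |z e| ≤ x
  rw [abs_le]
  push_cast at h1 h2
  constructor <;> linarith

/-- The theorem for connected multigraphs. -/
theorem shifted_of_connected (s t : E → V) (κ : ℝ) (hκ : 0 < κ) (hV : 1 < Fintype.card V)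
    (hcut : ∀ X : Finset V, X.Nonempty → X ≠ univ → (cut s t X).Nonempty)
    (hs : Sparse s t κ) (w : E → ℝ) :
    ∃ g : V → ℝ, ∀ e, rho (w e + g (s e) - g (t e)) ≤ 1 - κ := by
  have hall : ∀ κ' : ℝ, 0 < κ' → κ' < κ → ∃ g : V → ℝ,
      g ∈ Set.Icc (fun _ : V => (0:ℝ)) (fun _ => 2) ∧
      ∀ e, rho (w e + g (s e) - g (t e)) ≤ 1 - κ' := by
    intro κ' h0 hx
    obtain ⟨c, hc1, hc⟩ := exists_potentials s t κ hκ hV hcut hs κ' h0 hx
    exact lattice s t c (fun e => lt_of_lt_of_le one_pos (hc1 e)) (1 - κ') hc w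
  set G : (V → ℝ) → ℝ := fun g => ∑ e, max 0 (rho (w e + g (s e) - g (t e)) - (1 - κ)) with hG
  have hcont : Continuous G := by
    refine continuous_finsetSum _ fun e _ => ?_
    refine continuous_const.max ?_
    refine (rho_continuous.comp ?_).sub continuous_const
    fun_prop
  obtain ⟨g, hg, hmin⟩ := (isCompact_Icc (a := fun _ : V => (0:ℝ)) (b := fun _ => 2)).exists_isMinOn
    ⟨fun _ => 0, ⟨fun _ => le_refl _, fun _ => by norm_num⟩⟩ hcont.continuousOn
  have hle : ∀ κ' : ℝ, 0 < κ' → κ' < κ → G g ≤ (Fintype.card E : ℝ) * (κ - κ') := by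
    intro κ' h0 hx
    obtain ⟨g', hg', h1⟩ := hall κ' h0 hx
    have h2 : G g ≤ G g' := hmin hg'
    refine h2.trans ?_
    have h3 : G g' ≤ ∑ _e : E, (κ - κ') := by
      refine Finset.sum_le_sum fun e _ => ?_
      refine max_le (by linarith) ?_
      linarith [h1 e]
    rwa [Finset.sum_const, Finset.card_univ, nsmul_eq_mul] at h3
  have hG0 : G g ≤ 0 := by
    by_contra hcon
    push Not at hcon
    set C : ℝ := (Fintype.card E : ℝ) + 1 with hC
    have hC0 : 0 < C := by positivity
    -- choose κ' close to κ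
    set δ : ℝ := min (κ / 2) (G g / (2 * C)) with hδ
    have hδ0 : 0 < δ := lt_min (by linarith) (div_pos hcon (by linarith))
    have hδ1 : δ ≤ κ / 2 := min_le_left _ _
    have hδ2 : δ ≤ G g / (2 * C) := min_le_right _ _
    have h1 := hle (κ - δ) (by linarith) (by linarith)
    have h2 : (Fintype.card E : ℝ) * (κ - (κ - δ)) ≤ C * δ := by
      have : κ - (κ - δ) = δ := by ring
      rw [this]
      exact mul_le_mul_of_nonneg_right (by simp only [hC]; linarith) hδ0.le
    have h3 : C * δ ≤ C * (G g / (2 * C)) := mul_le_mul_of_nonneg_left hδ2 hC0.le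
    have h4 : C * (G g / (2 * C)) = G g / 2 := by field_simp
    linarith
  refine ⟨g, fun e => ?_⟩
  have h1 : max 0 (rho (w e + g (s e) - g (t e)) - (1 - κ)) ≤ G g :=
    Finset.single_le_sum (f := fun e => max 0 (rho (w e + g (s e) - g (t e)) - (1 - κ)))
      (fun e' _ => le_max_left _ _) (Finset.mem_univ e)
  have h2 := le_max_right 0 (rho (w e + g (s e) - g (t e)) - (1 - κ))
  linarith

end Pool.Agent.Arb
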