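import Mathlib
import Pool.Agent.Work.MP_392c8e_co_arb13.Lattice

/-!
The theorem for arbitrary multigraphs: adding an edge between two components keeps the
sparsity condition.
-/

namespace Pool.Agent.Arb

open Finset Pool.Agent.Circ

set_option linter.unusedSectionVars false

universe u v

variable {V : Type u} [Fintype V] [DecidableEq V]

/-- Adding an edge across an empty cut keeps the sparsity condition. -/
theorem sparse_option {E : Type v} [Fintype E] [DecidableEq E] (s t : E → V) (κ : ℝ)
    (hκ1 : κ ≤ 1) (hs : Sparse s t κ) (X : Finset V) (hX : cut s t X = ∅) (a b : V)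
    (ha : a ∈ X) (hb : b ∉ X) :
    Sparse (fun e : Option E => e.elim a s) (fun e : Option E => e.elim b t) κ := by
  classical
  intro p
  have hcard : (univ.filter (fun e : Option E => p (e.elim a s) = p (e.elim b t))).card =
      (if p a = p b then 1 else 0) + (univ.filter (fun e : E => p (s e) = p (t e))).card := by
    rw [Finset.card_filter, Finset.card_filter, Fintype.sum_option]
    rfl
  rw [hcard]
  by_cases hab : p a = p b
  · rw [if_pos hab]
    set q : V → ℕ := fun v => 2 * p v + (if v ∈ X then 1 else 0) with hq
    have h1 := hs q
    have h2 : univ.filter (fun e : E => p (s e) = p (t e)) =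
        univ.filter (fun e : E => q (s e) = q (t e)) := by
      refine Finset.filter_congr fun e _ => ?_
      have he : e ∉ cut s t X := by rw [hX]; exact Finset.notMem_empty _
      have he' : s e ∈ X ↔ t e ∈ X := by
        simpa [cut] using he
      by_cases hse : s e ∈ X
      · have hte := he'.1 hse
        simp only [hq, if_pos hse, if_pos hte]; omega
      · have hte : t e ∉ X := fun h => hse (he'.2 h)
        simp only [hq, if_neg hse, if_neg hte]; omega
    have h3 : (univ.image p).card + 1 ≤ (univ.image q).card := by
      have h4 : univ.image p = (univ.image q).image (fun j => j / 2) := by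
        rw [Finset.image_image]
        refine Finset.image_congr fun v _ => ?_
        simp only [Function.comp_apply, hq]
        by_cases hv : v ∈ X
        · rw [if_pos hv]; omega
        · rw [if_neg hv]; omega
      have h5 : (univ.image p).card ≤ (univ.image q).card := by
        rw [h4]; exact Finset.card_image_le
      by_contra hcon
      have h6 : ((univ.image q).image (fun j => j / 2)).card = (univ.image q).card := by
        rw [← h4]; omega
      have h7 := Finset.card_image_iff.1 h6
      have h8 : q a = q b := by
        refine h7 (by simp) (by simp) ?_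
        simp only [hq, if_pos ha, if_neg hb, hab]
        omega
      simp only [hq, if_pos ha, if_neg hb, hab] at h8
      omega
    have h3' : ((univ.image p).card : ℝ) + 1 ≤ ((univ.image q).card : ℝ) := by exact_mod_cast h3
    rw [← h2] at h1
    push_cast
    linarith
  · rw [if_neg hab, zero_add]
    exact hs p

/-- The theorem for arbitrary multigraphs, by induction on the number of empty cuts. -/
theorem shifted_aux (κ : ℝ) (hκ : 0 < κ) (hκ1 : κ ≤ 1) : ∀ (n : ℕ) (E : Type v) [Fintype E]
    [DecidableEq E] (s t : E → V),
    ((univ : Finset (Finset V)).filter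
      (fun X => X.Nonempty ∧ X ≠ univ ∧ cut s t X = ∅)).card ≤ n →
    Sparse s t κ → ∀ w : E → ℝ,
    ∃ g : V → ℝ, ∀ e, rho (w e + g (s e) - g (t e)) ≤ 1 - κ := by
  classical
  intro n
  induction n with
  | zero =>
    intro E _ _ s t hn hs w
    have hcut : ∀ X : Finset V, X.Nonempty → X ≠ univ → (cut s t X).Nonempty := by
      intro X h1 h2
      rw [Finset.nonempty_iff_ne_empty]
      intro h3
      have : X ∈ ((univ : Finset (Finset V)).filter
          (fun X => X.Nonempty ∧ X ≠ univ ∧ cut s t X = ∅)) := by
        simp [h1, h2, h3]
      rw [Nat.le_zero, Finset.card_eq_zero] at hn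
      rw [hn] at this
      exact absurd this (Finset.notMem_empty _)
    by_cases hV : 1 < Fintype.card V
    · exact shifted_of_connected s t κ hκ hV hcut hs w
    · have h1 := hs (fun _ => 0)
      have hE : IsEmpty E := by
        by_contra hne
        rw [not_isEmpty_iff] at hne
        obtain ⟨e⟩ := hne
        have h2 : (1:ℝ) ≤ ((univ.filter (fun _ : E => (0:ℕ) = 0)).card : ℝ) := by
          have : 1 ≤ (univ.filter (fun _ : E => (0:ℕ) = 0)).card :=
            Finset.card_pos.2 ⟨e, by simp⟩
          exact_mod_cast this
        have h3 : (univ.image (fun _ : V => (0:ℕ))).card = 1 := by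
          have : (univ.image (fun _ : V => (0:ℕ))) = {0} :=
            Finset.image_const ⟨s e, Finset.mem_univ _⟩ 0
          rw [this, Finset.card_singleton]
        have h4 : (Fintype.card V : ℝ) ≤ 1 := by exact_mod_cast (by omega : Fintype.card V ≤ 1)
        rw [h3, Nat.cast_one] at h1
        have h5 := mul_le_mul_of_nonneg_left h2 hκ.le
        linarith
      exact ⟨fun _ => 0, fun e => (hE.false e).elim⟩
  | succ n ih =>
    intro E _ _ s t hn hs w
    by_cases hall : ∀ X : Finset V, X.Nonempty → X ≠ univ → cut s t X ≠ ∅
    · refine ih E s t ?_ hs w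
      have : ((univ : Finset (Finset V)).filter
          (fun X => X.Nonempty ∧ X ≠ univ ∧ cut s t X = ∅)) = ∅ := by
        rw [Finset.filter_eq_empty_iff]
        rintro X _ ⟨h1, h2, h3⟩
        exact hall X h1 h2 h3
      rw [this, Finset.card_empty]
      exact Nat.zero_le _
    · push Not at hall
      obtain ⟨X, h1, h2, h3⟩ := hall
      obtain ⟨a, ha⟩ := h1
      obtain ⟨b, hb⟩ : ∃ b, b ∉ X := by
        by_contra hcon
        push Not at hcon
        exact h2 (Finset.eq_univ_of_forall hcon)
      have hs' := sparse_option s t κ hκ1 hs X h3 a b ha hb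
      have hn' : ((univ : Finset (Finset V)).filter
          (fun Y => Y.Nonempty ∧ Y ≠ univ ∧ cut (fun e : Option E => e.elim a s)
            (fun e : Option E => e.elim b t) Y = ∅)).card ≤ n := by
        have hlt : ((univ : Finset (Finset V)).filter
            (fun Y => Y.Nonempty ∧ Y ≠ univ ∧ cut (fun e : Option E => e.elim a s)
              (fun e : Option E => e.elim b t) Y = ∅)).card <
            ((univ : Finset (Finset V)).filter
              (fun X => X.Nonempty ∧ X ≠ univ ∧ cut s t X = ∅)).card := by
          refine Finset.card_lt_card ?_
          rw [Finset.ssubset_iff_of_subset]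
          · refine ⟨X, by simp [h2, h3, Finset.Nonempty]; exact ⟨a, ha⟩, ?_⟩
            intro hmem
            have h4 := (Finset.mem_filter.1 hmem).2.2.2
            have h5 : (none : Option E) ∈ cut (fun e : Option E => e.elim a s)
                (fun e : Option E => e.elim b t) X := by
              simp [cut, ha, hb]
            rw [h4] at h5
            exact absurd h5 (Finset.notMem_empty _)
          · intro Y hY
            rw [Finset.mem_filter] at hY ⊢
            refine ⟨Finset.mem_univ _, hY.2.1, hY.2.2.1, ?_⟩
            rw [Finset.eq_empty_iff_forall_notMem]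
            intro e he
            have h5 : (some e : Option E) ∈ cut (fun e : Option E => e.elim a s)
                (fun e : Option E => e.elim b t) Y := by
              simpa [cut] using he
            rw [hY.2.2.2] at h5
            exact absurd h5 (Finset.notMem_empty _)
        omega
      obtain ⟨g, hg⟩ := ih (Option E) _ _ hn' hs' (fun e => e.elim 0 w)
      exact ⟨g, fun e => hg (some e)⟩

/-- Every multigraph with the sparsity condition has, for all real shifts, a potential whose
shifted differences are within `1 - κ` of the odd integers. -/
theorem shifted {E : Type v} [Fintype E] [DecidableEq E] (s t : E → V) (κ : ℝ) (hκ : 0 < κ)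
    (hκ1 : κ ≤ 1) (hs : Sparse s t κ) (w : E → ℝ) :
    ∃ g : V → ℝ, ∀ e, ∃ n : ℤ, |w e + g (s e) - g (t e) - (2 * n + 1)| ≤ 1 - κ := by
  obtain ⟨g, hg⟩ := shifted_aux κ hκ hκ1 _ E s t (le_refl _) hs w
  refine ⟨g, fun e => ?_⟩
  obtain ⟨n, hn⟩ := exists_rho (w e + g (s e) - g (t e))
  exact ⟨n, by rw [hn]; exact hg e⟩

end Pool.Agent.Arb
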