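import Mathlib
import Pool.Agent.Work.MP_392c8e_co_arb13.Connect

/-!
A partition of the vertex set which is extremal for the sparsity condition.
-/

namespace Pool.Agent.Arb

open Finset Pool.Agent.Circ

set_option linter.unusedSectionVars false

universe u v

variable {V : Type u} [Fintype V] [DecidableEq V] {E : Type v} [Fintype E] [DecidableEq E]

/-- Number of edges inside the classes of `p`. -/
def ein (s t : E → V) (p : V → ℕ) : ℕ := (univ.filter (fun e => p (s e) = p (t e))).card

/-- Number of classes of `p`. -/
def ncl (p : V → ℕ) : ℕ := (univ.image p).card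

theorem ncl_le (p : V → ℕ) : ncl p ≤ Fintype.card V := Finset.card_image_le

theorem ein_le (s t : E → V) (p : V → ℕ) : ein s t p ≤ Fintype.card E :=
  (Finset.card_filter_le _ _).trans (le_of_eq Finset.card_univ)

/-- Splitting one class into singletons. -/
theorem split_class (s t : E → V) (p : V → ℕ) (v0 : V) :
    ∃ q : V → ℕ, ein s t p ≤ ein s t q +
        (univ.filter (fun e => p (s e) = p v0 ∧ p (t e) = p v0)).card ∧
      ncl p + (univ.filter (fun v => p v = p v0)).card ≤ ncl q + 1 := by
  classical
  set K : ℕ := (univ.image p).sup id + 1 with hK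
  have hpK : ∀ v, p v < K := by
    intro v
    have : p v ≤ (univ.image p).sup id :=
      Finset.le_sup (f := id) (Finset.mem_image_of_mem p (Finset.mem_univ v))
    omega
  set φ := Fintype.equivFin V
  set q : V → ℕ := fun v => if p v = p v0 then K + (φ v : ℕ) else p v with hq
  refine ⟨q, ?_, ?_⟩
  · unfold ein
    refine (Finset.card_le_card ?_).trans (Finset.card_union_le _ _)
    intro e he
    rw [Finset.mem_filter] at he
    rw [Finset.mem_union, Finset.mem_filter, Finset.mem_filter]
    by_cases h : p (s e) = p v0
    · right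
      exact ⟨Finset.mem_univ _, h, he.2 ▸ h⟩
    · left
      have h' : p (t e) ≠ p v0 := fun h' => h (he.2.trans h')
      refine ⟨Finset.mem_univ _, ?_⟩
      simp only [hq, if_neg h, if_neg h', he.2]
  · have h1 : ((univ.image p).erase (p v0)) ∪
        (univ.filter (fun v => p v = p v0)).image (fun v => K + (φ v : ℕ)) ⊆ univ.image q := by
      intro j hj
      rcases Finset.mem_union.1 hj with h | h
      · obtain ⟨h2, h3⟩ := Finset.mem_erase.1 h
        obtain ⟨v, _, hv⟩ := Finset.mem_image.1 h3
        refine Finset.mem_image.2 ⟨v, Finset.mem_univ _, ?_⟩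
        have : p v ≠ p v0 := by rw [hv]; exact h2
        simp only [hq, if_neg this, hv]
      · obtain ⟨v, hv, hv'⟩ := Finset.mem_image.1 h
        refine Finset.mem_image.2 ⟨v, Finset.mem_univ _, ?_⟩
        simp only [hq, if_pos (Finset.mem_filter.1 hv).2, hv']
    have h2 : Disjoint ((univ.image p).erase (p v0))
        ((univ.filter (fun v => p v = p v0)).image (fun v => K + (φ v : ℕ))) := by
      rw [Finset.disjoint_left]
      intro j hj hj'
      obtain ⟨v, _, hv⟩ := Finset.mem_image.1 (Finset.mem_of_mem_erase hj)
      obtain ⟨v', _, hv'⟩ := Finset.mem_image.1 hj'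
      have := hpK v
      omega
    have h3 : ((univ.filter (fun v => p v = p v0)).image (fun v => K + (φ v : ℕ))).card =
        (univ.filter (fun v => p v = p v0)).card := by
      refine Finset.card_image_of_injective _ ?_
      intro x y hxy
      have : (φ x : ℕ) = (φ y : ℕ) := by
        simp only at hxy; omega
      exact φ.injective (Fin.ext this)
    have h4 := Finset.card_le_card h1
    rw [Finset.card_union_of_disjoint h2, h3, Finset.card_erase_of_mem
      (Finset.mem_image_of_mem p (Finset.mem_univ v0))] at h4
    have h5 : 1 ≤ (univ.image p).card :=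
      Finset.card_pos.2 ⟨p v0, Finset.mem_image_of_mem p (Finset.mem_univ v0)⟩
    unfold ncl
    omega

/-- The extremal partition. -/
theorem exists_partition (s t : E → V) (a k : ℕ) :
    ∃ p : V → ℕ, (∀ q : V → ℕ, a * ein s t q + k * ncl q ≤ a * ein s t p + k * ncl p) ∧
      ∀ v0 : V, 2 ≤ (univ.filter (fun v => p v = p v0)).card →
        k * ((univ.filter (fun v => p v = p v0)).card - 1) <
          a * (univ.filter (fun e => p (s e) = p v0 ∧ p (t e) = p v0)).card := by
  classical
  set n := Fintype.card V with hn
  set F : (V → ℕ) → ℕ := fun p => (n + 1) * (a * ein s t p + k * ncl p) + ncl p with hF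
  have hbdd : BddAbove (Set.range F) := by
    refine ⟨(n + 1) * (a * Fintype.card E + k * n) + n, ?_⟩
    rintro _ ⟨p, rfl⟩
    have h1 := ein_le s t p
    have h2 := ncl_le p
    simp only [hF]
    gcongr
  obtain ⟨p, hp⟩ := Nat.sSup_mem (Set.range_nonempty F) hbdd
  have hmax : ∀ q, F q ≤ F p := fun q => by
    rw [hp]; exact le_csSup hbdd ⟨q, rfl⟩
  refine ⟨p, ?_, ?_⟩
  · intro q
    by_contra hcon
    push Not at hcon
    have h1 := hmax q
    have h2 := ncl_le p
    simp only [hF] at h1
    have h3 : (n + 1) * (a * ein s t p + k * ncl p + 1) ≤ (n + 1) * (a * ein s t q + k * ncl q) :=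
      Nat.mul_le_mul_left _ hcon
    have h4 : (n + 1) * (a * ein s t p + k * ncl p + 1) =
      (n + 1) * (a * ein s t p + k * ncl p) + (n + 1) := by ring
    omega
  · intro v0 h2
    by_contra hcon
    push Not at hcon
    obtain ⟨q, h3, h4⟩ := split_class s t p v0
    set U := (univ.filter (fun v => p v = p v0)).card with hU
    set eU := (univ.filter (fun e => p (s e) = p v0 ∧ p (t e) = p v0)).card with heU
    have h5 := hmax q
    simp only [hF] at h5
    have h6 : a * ein s t p + k * ncl p ≤ a * ein s t q + k * ncl q := by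
      obtain ⟨U', hU'⟩ : ∃ U', U = U' + 1 := ⟨U - 1, by omega⟩
      have h7 : U - 1 = U' := by omega
      rw [h7] at hcon
      have h8 : ncl p + U' ≤ ncl q := by omega
      calc a * ein s t p + k * ncl p ≤ a * (ein s t q + eU) + k * ncl p := by gcongr
        _ = a * ein s t q + a * eU + k * ncl p := by ring
        _ ≤ a * ein s t q + k * U' + k * ncl p := by omega
        _ = a * ein s t q + k * (ncl p + U') := by ring
        _ ≤ a * ein s t q + k * ncl q := by gcongr
    have h9 := Nat.mul_le_mul_left (n + 1) h6
    omega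

/-- The quotient by the extremal partition is sparse. -/
theorem sparse_quotient (s t : E → V) (a k : ℕ) (hk : 0 < k) (p : V → ℕ)
    (hp : ∀ q : V → ℕ, a * ein s t q + k * ncl q ≤ a * ein s t p + k * ncl p) :
    Sparse (V := {i : ℕ // i ∈ (univ : Finset V).image p}) (E := {e : E // p (s e) ≠ p (t e)})
      (fun e => ⟨p (s e.1), Finset.mem_image_of_mem p (Finset.mem_univ _)⟩)
      (fun e => ⟨p (t e.1), Finset.mem_image_of_mem p (Finset.mem_univ _)⟩)
      ((a : ℝ) / k) := by
  classical
  intro r
  set q : V → ℕ := fun v => r ⟨p v, Finset.mem_image_of_mem p (Finset.mem_univ _)⟩ with hq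
  have h1 := hp q
  have hnc : ncl q = (univ.image r).card := by
    unfold ncl
    congr 1
    ext j
    simp only [Finset.mem_image, Finset.mem_univ, true_and]
    constructor
    · rintro ⟨v, hv⟩
      exact ⟨_, hv⟩
    · rintro ⟨⟨i, hi⟩, hv⟩
      obtain ⟨v, _, hv'⟩ := Finset.mem_image.1 hi
      refine ⟨v, ?_⟩
      simp only [hq]
      rw [← hv]
      congr 1
      exact Subtype.ext hv'
  have hcv : Fintype.card {i : ℕ // i ∈ (univ : Finset V).image p} = ncl p :=
    Fintype.card_of_subtype (univ.image p) (fun _ => Iff.rfl)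
  set X := (univ.filter (fun e : {e : E // p (s e) ≠ p (t e)} =>
    r ⟨p (s e.1), Finset.mem_image_of_mem p (Finset.mem_univ _)⟩ =
    r ⟨p (t e.1), Finset.mem_image_of_mem p (Finset.mem_univ _)⟩)).card with hX
  have hXe : ein s t p + X ≤ ein s t q := by
    have h2 : X = ((univ.filter (fun e : {e : E // p (s e) ≠ p (t e)} =>
      r ⟨p (s e.1), Finset.mem_image_of_mem p (Finset.mem_univ _)⟩ =
      r ⟨p (t e.1), Finset.mem_image_of_mem p (Finset.mem_univ _)⟩)).image
        (fun e => (e.1 : E))).card := by
      rw [Finset.card_image_of_injective _ Subtype.val_injective]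
    have h3 : Disjoint (univ.filter (fun e : E => p (s e) = p (t e)))
        ((univ.filter (fun e : {e : E // p (s e) ≠ p (t e)} =>
      r ⟨p (s e.1), Finset.mem_image_of_mem p (Finset.mem_univ _)⟩ =
      r ⟨p (t e.1), Finset.mem_image_of_mem p (Finset.mem_univ _)⟩)).image
        (fun e => (e.1 : E))) := by
      rw [Finset.disjoint_left]
      intro e he he'
      obtain ⟨e', _, h5⟩ := Finset.mem_image.1 he'
      exact e'.2 (h5 ▸ (Finset.mem_filter.1 he).2)
    rw [h2]
    unfold ein
    rw [← Finset.card_union_of_disjoint h3]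
    refine Finset.card_le_card ?_
    intro e he
    rw [Finset.mem_filter]
    refine ⟨Finset.mem_univ _, ?_⟩
    rcases Finset.mem_union.1 he with h | h
    · have := (Finset.mem_filter.1 h).2
      simp only [hq]
      congr 1
      exact Subtype.ext this
    · obtain ⟨e', h4, h5⟩ := Finset.mem_image.1 h
      rw [← h5]
      exact (Finset.mem_filter.1 h4).2
  have h6 : a * X + k * (univ.image r).card ≤ k * ncl p := by
    rw [hnc] at h1
    have h7 := Nat.mul_le_mul_left a hXe
    rw [Nat.mul_add] at h7
    omega
  rw [hcv, div_mul_eq_mul_div, div_le_iff₀ (by exact_mod_cast hk)]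
  have h8 : (a : ℝ) * X + k * ((univ.image r).card : ℝ) ≤ k * (ncl p : ℝ) := by exact_mod_cast h6
  linarith

end Pool.Agent.Arb
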