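import Mathlib
import Pool.Agent.Work.MP_392c8e_co_arb13.Partition

/-!
`(k, d)`-colourings of finite graphs from colourings of the dense induced subgraphs.
-/

namespace Pool.Agent.Arb

open Finset Pool.Agent.Circ

set_option linter.unusedSectionVars false

universe u

/-- The difference of `x` and `y` is, modulo `k`, between `d` and `k - d`. -/
def Far (k d : ℝ) (x y : ℝ) : Prop := ∃ n : ℤ, d ≤ x - y - k * n ∧ x - y - k * n ≤ k - d

theorem Far.symm {k d x y : ℝ} (h : Far k d x y) : Far k d y x := by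
  obtain ⟨n, h1, h2⟩ := h
  refine ⟨-n - 1, ?_, ?_⟩
  · push_cast; linarith
  · push_cast; linarith

/-- From real potentials to a `(k, d)`-colouring. -/
theorem exists_col {V : Type u} (G : SimpleGraph V) (k d : ℕ) (hk : 0 < k) (Θ : V → ℝ)
    (h : ∀ u v, G.Adj u v → Far k d (Θ u) (Θ v)) :
    ∃ c : V → ℕ, (∀ v, c v < k) ∧ ∀ u v, G.Adj u v →
      (d : ℤ) ≤ |(c u : ℤ) - c v| ∧ |(c u : ℤ) - c v| ≤ (k : ℤ) - d := by
  have hkZ : (0:ℤ) < k := by exact_mod_cast hk
  refine ⟨fun v => (⌊Θ v⌋ % (k:ℤ)).toNat, ?_, ?_⟩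
  · intro v
    have h1 := Int.emod_nonneg ⌊Θ v⌋ hkZ.ne'
    have h2 := Int.emod_lt_of_pos ⌊Θ v⌋ hkZ
    have : (((⌊Θ v⌋ % (k:ℤ)).toNat : ℕ) : ℤ) < k := by rw [Int.toNat_of_nonneg h1]; exact h2
    exact_mod_cast this
  · intro u v huv
    obtain ⟨n, h1, h2⟩ := h u v huv
    have hu1 := Int.emod_nonneg ⌊Θ u⌋ hkZ.ne'
    have hu2 := Int.emod_lt_of_pos ⌊Θ u⌋ hkZ
    have hv1 := Int.emod_nonneg ⌊Θ v⌋ hkZ.ne'
    have hv2 := Int.emod_lt_of_pos ⌊Θ v⌋ hkZ
    have hu3 := Int.emod_add_mul_ediv ⌊Θ u⌋ (k:ℤ)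
    have hv3 := Int.emod_add_mul_ediv ⌊Θ v⌋ (k:ℤ)
    have h3 : ⌊Θ v⌋ + ((d:ℤ) + k * n) ≤ ⌊Θ u⌋ := by
      rw [← Int.floor_add_intCast]
      refine Int.floor_le_floor ?_
      push_cast
      linarith
    have h4 : ⌊Θ u⌋ ≤ ⌊Θ v⌋ + ((k:ℤ) - d + k * n) := by
      rw [← Int.floor_add_intCast]
      refine Int.floor_le_floor ?_
      push_cast
      linarith
    simp only
    rw [Int.toNat_of_nonneg hu1, Int.toNat_of_nonneg hv1]
    set x := ⌊Θ u⌋ % (k:ℤ) with hx
    set y := ⌊Θ v⌋ % (k:ℤ) with hy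
    set j : ℤ := ⌊Θ u⌋ / (k:ℤ) - ⌊Θ v⌋ / (k:ℤ) - n with hj
    have h5 : (d:ℤ) ≤ x - y + k * j := by
      rw [hj]; linarith
    have h6 : x - y + k * j ≤ k - d := by
      rw [hj]; linarith
    have hd0 : (0:ℤ) ≤ d := Int.natCast_nonneg d
    have h7 : j ≤ 1 := by
      by_contra hcon
      push Not at hcon
      have : (k:ℤ) * 2 ≤ k * j := mul_le_mul_of_nonneg_left (by omega) hkZ.le
      omega
    have h8 : 0 ≤ j := by
      by_contra hcon
      push Not at hcon
      have : (k:ℤ) * j ≤ k * (-1) := mul_le_mul_of_nonneg_left (by omega) hkZ.le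
      omega
    rcases (show j = 0 ∨ j = 1 by omega) with h9 | h9
    · rw [h9, mul_zero, add_zero] at h5 h6
      have h10 : 0 ≤ x - y := by omega
      rw [abs_of_nonneg h10]
      exact ⟨h5, h6⟩
    · rw [h9, mul_one] at h5 h6
      have h10 : x - y ≤ 0 := by omega
      rw [abs_of_nonpos h10]
      exact ⟨by omega, by omega⟩

/-- A `(k, d)`-colouring gives values that are far from each other. -/
theorem far_of_col (k d : ℕ) (x y : ℕ) (h1 : (d : ℤ) ≤ |(x : ℤ) - y|)
    (h2 : |(x : ℤ) - y| ≤ (k : ℤ) - d) : Far k d (x : ℝ) (y : ℝ) := by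
  rcases le_or_gt (0:ℤ) ((x:ℤ) - y) with h | h
  · rw [abs_of_nonneg h] at h1 h2
    refine ⟨0, ?_, ?_⟩
    · have : ((d:ℤ):ℝ) ≤ (((x:ℤ) - y : ℤ) : ℝ) := by exact_mod_cast h1
      push_cast at this ⊢
      linarith
    · have : (((x:ℤ) - y : ℤ) : ℝ) ≤ (((k:ℤ) - d : ℤ) : ℝ) := by exact_mod_cast h2
      push_cast at this ⊢
      linarith
  · rw [abs_of_neg h] at h1 h2
    refine ⟨-1, ?_, ?_⟩
    · have : ((-((x:ℤ) - y) : ℤ) : ℝ) ≤ (((k:ℤ) - d : ℤ) : ℝ) := by exact_mod_cast h2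
      push_cast at this ⊢
      linarith
    · have : ((d:ℤ):ℝ) ≤ ((-((x:ℤ) - y) : ℤ) : ℝ) := by exact_mod_cast h1
      push_cast at this ⊢
      linarith

/-- The main theorem. -/
theorem main {V : Type u} [Fintype V] (G : SimpleGraph V) (k d : ℕ) (hd : 1 ≤ d)
    (hk : 2 * d ≤ k)
    (hdense : ∀ U : Set V, k * (U.ncard - 1) < 2 * d * (G.induce U).edgeSet.ncard →
      ∃ c : U → ℕ, (∀ v, c v < k) ∧ ∀ u v, (G.induce U).Adj u v →
        (d : ℤ) ≤ |(c u : ℤ) - c v| ∧ |(c u : ℤ) - c v| ≤ (k : ℤ) - d) :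
    ∃ c : V → ℕ, (∀ v, c v < k) ∧ ∀ u v, G.Adj u v →
      (d : ℤ) ≤ |(c u : ℤ) - c v| ∧ |(c u : ℤ) - c v| ≤ (k : ℤ) - d := by
  classical
  have hk0 : 0 < k := by omega
  have hkR : (0:ℝ) < k := by exact_mod_cast hk0
  let E := G.edgeSet
  let s : E → V := fun e => (Quot.out e.1).1
  let t : E → V := fun e => (Quot.out e.1).2
  have hst : ∀ e : E, s(s e, t e) = e.1 := fun e => Quot.out_eq e.1
  have hadj : ∀ e : E, G.Adj (s e) (t e) := by
    intro e
    rw [← SimpleGraph.mem_edgeSet, hst e]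
    exact e.2
  obtain ⟨p, hp1, hp2⟩ := exists_partition s t (2 * d) k
  -- colourings of the classes
  have hcls : ∀ i : ℕ, ∃ h : V → ℝ, ∀ u v, p u = i → p v = i → G.Adj u v →
      Far k d (h u) (h v) := by
    intro i
    by_cases hi : ∃ v0, p v0 = i ∧ 2 ≤ (univ.filter (fun v => p v = p v0)).card
    · obtain ⟨v0, hv0, h2⟩ := hi
      have h3 := hp2 v0 h2
      set U : Set V := {v | p v = p v0} with hU
      have h4 : U.ncard = (univ.filter (fun v => p v = p v0)).card := by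
        rw [hU, Set.ncard_eq_toFinset_card']
        congr 1
        ext v
        simp
      have h5 : (univ.filter (fun e : E => p (s e) = p v0 ∧ p (t e) = p v0)).card ≤
          (G.induce U).edgeSet.ncard := by
        rw [Set.ncard_eq_toFinset_card']
        refine Finset.card_le_card_of_injOn
          (fun e => if h : s e ∈ U ∧ t e ∈ U then s(⟨s e, h.1⟩, ⟨t e, h.2⟩) else
            s(⟨v0, rfl⟩, ⟨v0, rfl⟩)) ?_ ?_
        · intro e he
          have he' := (Finset.mem_filter.1 he).2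
          have h6 : s e ∈ U ∧ t e ∈ U := ⟨he'.1, he'.2⟩
          simp only [dif_pos h6]
          simp only [Set.coe_toFinset, SimpleGraph.mem_edgeSet, SimpleGraph.comap_adj,
            Function.Embedding.subtype_apply]
          exact hadj e
        · intro e he e' he' hee
          have h6 : s e ∈ U ∧ t e ∈ U := ⟨(Finset.mem_filter.1 he).2.1, (Finset.mem_filter.1 he).2.2⟩
          have h7 : s e' ∈ U ∧ t e' ∈ U :=
            ⟨(Finset.mem_filter.1 he').2.1, (Finset.mem_filter.1 he').2.2⟩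
          simp only [dif_pos h6, dif_pos h7] at hee
          have h8 := congrArg (Sym2.map Subtype.val) hee
          simp only [Sym2.map_mk] at h8
          rw [hst e, hst e'] at h8
          exact Subtype.ext h8
      obtain ⟨c, _, hc⟩ := hdense U (by
        rw [h4]
        exact lt_of_lt_of_le h3 (Nat.mul_le_mul_left _ h5))
      refine ⟨fun v => if h : v ∈ U then (c ⟨v, h⟩ : ℝ) else 0, ?_⟩
      intro u v hu hv huv
      have hu' : u ∈ U := by rw [hU]; exact hu.trans hv0.symm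
      have hv' : v ∈ U := by rw [hU]; exact hv.trans hv0.symm
      simp only [dif_pos hu', dif_pos hv']
      obtain ⟨h6, h7⟩ := hc ⟨u, hu'⟩ ⟨v, hv'⟩ (by simpa using huv)
      exact far_of_col k d _ _ h6 h7
    · refine ⟨fun _ => 0, ?_⟩
      intro u v hu hv huv
      exfalso
      apply hi
      refine ⟨u, hu, ?_⟩
      have h3 : ({u, v} : Finset V) ⊆ univ.filter (fun w => p w = p u) := by
        intro w hw
        rw [Finset.mem_insert, Finset.mem_singleton] at hw
        rw [Finset.mem_filter]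
        rcases hw with rfl | rfl
        · exact ⟨Finset.mem_univ _, rfl⟩
        · exact ⟨Finset.mem_univ _, hv.trans hu.symm⟩
      have h4 := Finset.card_le_card h3
      rwa [Finset.card_pair huv.ne] at h4
  choose h hh using hcls
  set H : V → ℝ := fun v => h (p v) v with hH
  -- the quotient
  have hsp := sparse_quotient s t (2 * d) k hk0 p hp1
  set κ : ℝ := ((2 * d : ℕ) : ℝ) / k with hκ
  have hκ0 : 0 < κ := div_pos (by exact_mod_cast (by omega : 0 < 2 * d)) hkR
  have hκ1 : κ ≤ 1 := by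
    rw [hκ, div_le_one hkR]
    exact_mod_cast hk
  obtain ⟨g, hg⟩ := shifted _ _ κ hκ0 hκ1 hsp (fun e => 2 / k * (H (s e.1) - H (t e.1)))
  set Θ : V → ℝ := fun v => H v + k / 2 *
    g ⟨p v, Finset.mem_image_of_mem p (Finset.mem_univ _)⟩ with hΘ
  refine exists_col G k d hk0 Θ ?_
  intro u v huv
  by_cases hpuv : p u = p v
  · have h1 := hh (p u) u v rfl hpuv.symm huv
    have h2 : Θ u - Θ v = h (p u) u - h (p u) v := by
      simp only [hΘ, hH, hpuv]
      ring
    obtain ⟨n, h3, h4⟩ := h1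
    exact ⟨n, by rw [h2]; exact h3, by rw [h2]; exact h4⟩
  · -- a crossing edge
    have hcross : ∀ e : E, p (s e) ≠ p (t e) → Far k d (Θ (s e)) (Θ (t e)) := by
      intro e he
      obtain ⟨n, hn⟩ := hg ⟨e, he⟩
      rw [abs_le] at hn
      obtain ⟨h1, h2⟩ := hn
      simp only at h1 h2
      have h3 : (k:ℝ) / 2 * (1 - κ) = k / 2 - d := by
        rw [hκ]
        push_cast
        field_simp
      have h4 : Θ (s e) - Θ (t e) - k * n = k / 2 + k / 2 * (2 / k * (H (s e) - H (t e)) +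
          g ⟨p (s e), Finset.mem_image_of_mem p (Finset.mem_univ _)⟩ -
          g ⟨p (t e), Finset.mem_image_of_mem p (Finset.mem_univ _)⟩ - (2 * n + 1)) := by
        simp only [hΘ]
        field_simp
        ring
      have h5 := mul_le_mul_of_nonneg_left h1 (show (0:ℝ) ≤ k / 2 by positivity)
      have h6 := mul_le_mul_of_nonneg_left h2 (show (0:ℝ) ≤ k / 2 by positivity)
      rw [h3] at h6
      rw [mul_neg, h3] at h5
      refine ⟨n, ?_, ?_⟩
      · rw [h4]; linarith
      · rw [h4]; linarith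
    set e : E := ⟨s(u, v), huv⟩ with he
    have h1 : s(s e, t e) = s(u, v) := hst e
    rw [Sym2.eq_iff] at h1
    rcases h1 with ⟨h2, h3⟩ | ⟨h2, h3⟩
    · have := hcross e (by rw [h2, h3]; exact hpuv)
      rwa [h2, h3] at this
    · have := hcross e (by rw [h2, h3]; exact fun h => hpuv h.symm)
      rw [h2, h3] at this
      exact this.symm

end Pool.Agent.Arb
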